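import Pool.Agent.H55.TauFinal

/-!
# Hausdorffness of the τ-topology on ideal groups under NIP

Let `M` be a structure whose theory has NIP, `G` a group `0`-definable in `M`, and `N` an
`|M|⁺`-saturated elementary extension of `M`.  Then the semigroup operation `*` on
`S_G^fs(N, M)` is well defined, and for every minimal left ideal `I` and every idempotent `u ∈ I`
the τ-topology on the ideal group `u I` is Hausdorff.  There is no restriction on the cardinality
of `M`.
-/

open FirstOrder FirstOrder.Language Topology Cardinal Pool.Agent.H55.Tau

namespace Pool.Agent.Results.MP_984980_lc.TauHausdorff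

universe u v w

theorem result (L : FirstOrder.Language.{u, v}) (M N : Type w) [L.Structure M] [L.Structure N]
    [Nonempty M] (hNIP : IsNIP L M) (e : M ↪ₑ[L] N)
    (hsat : IsSaturated L (Order.succ #M) N) (k : ℕ) (G : DefGroup L M k) :
    ∃ op : SGfs G e → SGfs G e → SGfs G e,
      (∀ p q r : SGfs G e, IsProd p q r ↔ r = op p q) ∧
      ∀ I : Set (SGfs G e), IsMinimalLeftIdeal op I → ∀ u ∈ I, op u u = u →
        ∃ t : TopologicalSpace ↥(idealGroup op I u),
          (∀ A : Set ↥(idealGroup op I u),
            IsClosed[t] A ↔ clTau op I u (Subtype.val '' A) = Subtype.val '' A) ∧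
          @T2Space _ t :=
  main L M N hNIP e hsat k G

end Pool.Agent.Results.MP_984980_lc.TauHausdorff
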